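import Mathlib
import Pool.Agent.Helper710.PGMain

set_option autoImplicit false

namespace Pool.Agent.Results.MP_e5770a_an.SpectralGrowth

open Filter Topology

/-- `ι : H → K` exhibits the complex Hilbert space `K` as the complexification `H ⊕ iH` of the real
Hilbert space `H`: every vector of `K` is `ι x + i ι y`, and `‖ι x + i ι y‖² = ‖x‖² + ‖y‖²`
(so `x`, `y` are unique). -/
def IsComplexification {H K : Type*} [NormedAddCommGroup H] [InnerProductSpace ℝ H]
    [NormedAddCommGroup K] [InnerProductSpace ℂ K] (ι : H →ₗ[ℝ] K) : Prop :=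
  (∀ x y : H, ‖ι x + Complex.I • ι y‖ ^ 2 = ‖x‖ ^ 2 + ‖y‖ ^ 2) ∧
    ∀ z : K, ∃ x y : H, z = ι x + Complex.I • ι y

/-- `P` is a convex cone in `H` that is closed, normal (for the order `x ≤ y` iff `y - x ∈ P`, some
`c > 0` satisfies `‖x‖ ≤ c ‖y‖` whenever `0 ≤ x ≤ y`) and generating (`P - P = H`). -/
structure IsClosedNormalGeneratingCone {H : Type*} [NormedAddCommGroup H] [InnerProductSpace ℝ H]
    (P : Set H) : Prop where
  zero_mem : (0 : H) ∈ P
  add_mem : ∀ x ∈ P, ∀ y ∈ P, x + y ∈ P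
  smul_mem : ∀ a : ℝ, 0 ≤ a → ∀ x ∈ P, a • x ∈ P
  closed : IsClosed P
  normal : ∃ c : ℝ, 0 < c ∧ ∀ x y : H, x ∈ P → y - x ∈ P → ‖x‖ ≤ c * ‖y‖
  generating : ∀ x : H, ∃ a ∈ P, ∃ b ∈ P, x = a - b

/-- strongly continuous one-parameter group of bounded operators on `K` -/
structure IsC0Group {K : Type*} [NormedAddCommGroup K] [InnerProductSpace ℂ K]
    (T : ℝ → K →L[ℂ] K) : Prop where
  zero : T 0 = ContinuousLinearMap.id ℂ K
  add : ∀ s t : ℝ, T (s + t) = (T s).comp (T t)
  cont : ∀ x : K, Continuous fun t : ℝ => T t x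

/-- `x` belongs to the domain of the generator `A` of `T` and `A x = y`. -/
def GeneratorMaps {K : Type*} [NormedAddCommGroup K] [InnerProductSpace ℂ K]
    (T : ℝ → K →L[ℂ] K) (x y : K) : Prop :=
  HasDerivAt (fun t : ℝ => T t x) y 0

/-- The spectrum `σ(A)` of the generator `A` of `T`: the complex numbers `z` for which `z - A` has
no bounded everywhere defined two-sided inverse. -/
def generatorSpectrum {K : Type*} [NormedAddCommGroup K] [InnerProductSpace ℂ K]
    (T : ℝ → K →L[ℂ] K) : Set ℂ :=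
  {z | ¬ ∃ R : K →L[ℂ] K, (∀ x : K, GeneratorMaps T (R x) (z • R x - x)) ∧
    ∀ x y : K, GeneratorMaps T x y → R (z • x - y) = x}

/-- Positive answer to Q1: for every strongly continuous group `T` of positive operators on the
complexification of a (nonzero) real Hilbert space ordered by a closed, normal, generating cone,
the growth bound `ω₀ = lim t⁻¹ ln ‖T_t‖` exists and is the least upper bound `s(A)` of the real
parts of the spectrum of the generator; moreover `ω₀` itself belongs to the spectrum. -/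
theorem result (H : Type*) [NormedAddCommGroup H] [InnerProductSpace ℝ H] [CompleteSpace H]
    (P : Set H) (hP : IsClosedNormalGeneratingCone P)
    (K : Type*) [NormedAddCommGroup K] [InnerProductSpace ℂ K] [CompleteSpace K] [Nontrivial K]
    (ι : H →ₗ[ℝ] K) (hι : IsComplexification ι)
    (T : ℝ → K →L[ℂ] K) (hT : IsC0Group T)
    (hpos : ∀ t : ℝ, ∀ x ∈ P, ∃ y ∈ P, T t (ι x) = ι y) :
    ∃ ω₀ : ℝ, Tendsto (fun t : ℝ => Real.log ‖T t‖ / t) atTop (𝓝 ω₀) ∧
      IsLUB (Complex.re '' generatorSpectrum T) ω₀ ∧ (ω₀ : ℂ) ∈ generatorSpectrum T := by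
  obtain ⟨c, hc0, hc⟩ := hP.normal
  have hP' : Pool.Agent.Helper710.PosGroup.OCone P c :=
    ⟨hP.zero_mem, hP.add_mem, hP.smul_mem, hP.closed, hc0, hc, hP.generating⟩
  have hT' : Pool.Agent.Helper710.PosGroup.C0Group T :=
    ⟨fun x => by rw [hT.zero]; rfl, fun s t x => by rw [hT.add]; rfl, hT.cont⟩
  have hι' : Pool.Agent.Helper710.PosGroup.Cplx ι := hι
  obtain ⟨w, hw, hw2⟩ := hT'.exists_growth
  have hmem : (w : ℂ) ∈ generatorSpectrum T := by
    rintro ⟨R, hR1, hR2⟩
    exact Pool.Agent.Helper710.PosGroup.growth_mem_spectrum hT' hι' hP' hpos hw hw2 R ⟨hR1, hR2⟩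
  refine ⟨w, hw, ⟨?_, ?_⟩, hmem⟩
  · rintro _ ⟨z, hz, rfl⟩
    by_contra hlt
    push Not at hlt
    obtain ⟨r, hr1, hr2⟩ := exists_between hlt
    obtain ⟨M, _, hM⟩ := hT'.exp_bound hw hr1
    obtain ⟨R, hR, _⟩ := Pool.Agent.Helper710.PosGroup.exists_res hT' hM hr2
    exact hz ⟨R, hR.1, hR.2⟩
  · intro b hb
    have := hb ⟨(w : ℂ), hmem, rfl⟩
    simpa using this

end Pool.Agent.Results.MP_e5770a_an.SpectralGrowth
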